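import Pool.Agent.S718.Bound

/-!
# `k(n) ≤ min (3 n^{2/5}, 21 n^{7/18})`

Problem MP_b30ba5_nt.  If each of `m+1, …, m+k` (with `m ≤ n`) has a prime factor `> k`, then
`k ≤ 3 n^{2/5}` and `k ≤ 21 n^{7/18}`.  The proof produces, for larger `k`, an integer
`t (u-y) (u+y)` in `(m, m+k]` with all three factors at most `k`.
-/

set_option autoImplicit false

namespace Pool.Agent.Results.MP_b30ba5_nt.SevenEighteenths

/-- `(n,k)` is admissible: there is `m ≤ n` such that each of `m+1, …, m+k` is divisible by some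
prime `p > k`. -/
def Admissible (n k : ℕ) : Prop :=
  ∃ m : ℕ, m ≤ n ∧ ∀ i : ℕ, 1 ≤ i → i ≤ k → ∃ p : ℕ, p.Prime ∧ k < p ∧ p ∣ m + i

/-- **`k(n) ≤ 3 n^{2/5}` and `k(n) ≤ 21 n^{7/18}`** for all `n ≥ 1`. -/
theorem result (n k : ℕ) (hn : 1 ≤ n) (h : Admissible n k) :
    (k : ℝ) ≤ 3 * (n : ℝ) ^ (2 / 5 : ℝ) ∧ (k : ℝ) ≤ 21 * (n : ℝ) ^ (7 / 18 : ℝ) := by
  refine ⟨Pool.Agent.S718.two_fifths n k h, ?_⟩
  obtain ⟨m, hmn, h⟩ := h
  have hn0 : (1 : ℝ) ≤ n := by exact_mod_cast hn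
  have hmn' : (m : ℝ) ≤ n := by exact_mod_cast hmn
  have hn1 : (1 : ℝ) ≤ (n : ℝ) ^ (7 / 18 : ℝ) := Real.one_le_rpow hn0 (by norm_num)
  rcases Nat.eq_zero_or_pos m with rfl | hm
  · rcases Nat.eq_zero_or_pos k with rfl | hk
    · simp only [Nat.cast_zero]; positivity
    · obtain ⟨p, hp, -, hd⟩ := h 1 le_rfl hk
      rw [zero_add] at hd
      exact absurd (Nat.dvd_one.mp hd) hp.one_lt.ne'
  have hm0 : (0 : ℝ) < m := by exact_mod_cast hm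
  have hmono : (m : ℝ) ^ (7 / 18 : ℝ) ≤ (n : ℝ) ^ (7 / 18 : ℝ) :=
    Real.rpow_le_rpow hm0.le hmn' (by norm_num)
  by_cases hbig : 16 / 9 * 144 ^ 5 * 4 ^ 18 ≤ (m : ℝ) + 1
  · obtain ⟨j, T, w, h1, h2, h3, h4⟩ := Pool.Agent.S718.exists_QT _ hbig
    have h5 := Pool.Agent.S718.bound_T h T w j h1 h2 h3
    have h6 : ((m : ℝ) + 1) ^ (7 / 18 : ℝ) ≤ 102 / 100 * (n : ℝ) ^ (7 / 18 : ℝ) := by
      have h7 : (m : ℝ) + 1 ≤ 102 / 100 * n := by
        have : (100 : ℝ) ≤ m := by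
          have : (16 : ℝ) / 9 * 144 ^ 5 * 4 ^ 18 ≥ 101 := by norm_num
          linarith
        linarith
      calc ((m : ℝ) + 1) ^ (7 / 18 : ℝ) ≤ (102 / 100 * (n : ℝ)) ^ (7 / 18 : ℝ) :=
            Real.rpow_le_rpow (by positivity) h7 (by norm_num)
        _ = (102 / 100 : ℝ) ^ (7 / 18 : ℝ) * (n : ℝ) ^ (7 / 18 : ℝ) :=
            Real.mul_rpow (by norm_num) (by positivity)
        _ ≤ (102 / 100 : ℝ) ^ (1 : ℝ) * (n : ℝ) ^ (7 / 18 : ℝ) :=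
            mul_le_mul_of_nonneg_right
              (Real.rpow_le_rpow_of_exponent_le (by norm_num) (by norm_num)) (by positivity)
        _ = 102 / 100 * (n : ℝ) ^ (7 / 18 : ℝ) := by rw [Real.rpow_one]
    linarith
  · push Not at hbig
    have h1 := Pool.Agent.S718.two_fifths m k ⟨m, le_rfl, h⟩
    have h2 : (m : ℝ) ^ (2 / 5 : ℝ) ≤ (m : ℝ) ^ (7 / 18 : ℝ) * 2 := by
      have h3 : (m : ℝ) ^ (2 / 5 : ℝ) = (m : ℝ) ^ (7 / 18 : ℝ) * (m : ℝ) ^ (1 / 90 : ℝ) := by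
        rw [← Real.rpow_add hm0]; norm_num
      rw [h3]
      apply mul_le_mul_of_nonneg_left _ (by positivity)
      calc (m : ℝ) ^ (1 / 90 : ℝ) ≤ ((2 : ℝ) ^ (90 : ℝ)) ^ (1 / 90 : ℝ) := by
            apply Real.rpow_le_rpow hm0.le _ (by norm_num)
            have h4 : (2 : ℝ) ^ (90 : ℝ) = 2 ^ 90 := by
              rw [← Real.rpow_natCast]; norm_num
            rw [h4]
            have h5 : (16 : ℝ) / 9 * 144 ^ 5 * 4 ^ 18 ≤ 2 ^ 90 := by norm_num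
            linarith
        _ = 2 := by rw [← Real.rpow_mul (by norm_num)]; norm_num
    linarith

end Pool.Agent.Results.MP_b30ba5_nt.SevenEighteenths
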